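import Pool.Agent.helper74.NL.Z
import Pool.Agent.helper74.MQ.Spec

/-!
# Invariant line fields of `z ^ n + c` and multipliers near the unit circle: version with the single exceptional point `1`
-/

set_option autoImplicit false

open Complex Metric Set Filter Topology MeasureTheory MPS Pool.Agent.helper98.ILF

noncomputable section

namespace NLF

def QUANT1_stmt : Prop := ∀ n : ℕ, 2 ≤ n → ∀ d₀ > (0 : ℝ), ∃ κ > (0 : ℝ), ∀ (c : ℂ) (μ : ℂ → ℂ),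
  IsInvariantLineField (fun z : ℂ => z ^ n + c) μ → CT μ c ≠ 0 ∧ ∀ z ρ : ℂ,
    2 ≤ Function.minimalPeriod (fun w : ℂ => w ^ n + c) z →
    ρ = deriv ((fun w : ℂ => w ^ n + c)^[Function.minimalPeriod (fun w : ℂ => w ^ n + c) z]) z →
    d₀ ≤ ‖ρ / ‖ρ‖ - 1‖ → κ * ‖CT μ c‖ ≤ Real.log ‖ρ‖

def QUAL1_stmt : Prop := ∀ (n : ℕ) (c : ℂ), 2 ≤ n →
  HasInvariantLineField (fun z : ℂ => z ^ n + c) → ∀ d₀ > (0 : ℝ), ∃ ε > (0 : ℝ), ∀ z ρ : ℂ,
    0 < Function.minimalPeriod (fun w : ℂ => w ^ n + c) z →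
    ρ = deriv ((fun w : ℂ => w ^ n + c)^[Function.minimalPeriod (fun w : ℂ => w ^ n + c) z]) z →
    d₀ ≤ ‖ρ / ‖ρ‖ - 1‖ → 1 + ε ≤ ‖ρ‖

def FIN1_stmt : Prop := ∀ (n : ℕ) (c ζ : ℂ), 2 ≤ n → ‖ζ‖ = 1 → ζ ≠ 1 →
  (∀ η > (0 : ℝ), ∃ z : ℂ, 0 < Function.minimalPeriod (fun w : ℂ => w ^ n + c) z ∧
    ‖deriv ((fun w : ℂ => w ^ n + c)^[Function.minimalPeriod (fun w : ℂ => w ^ n + c) z]) z - ζ‖ < η) →
  ¬ HasInvariantLineField (fun z : ℂ => z ^ n + c)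

/-- a cycle whose multiplier is not `±` close to a root of unity is repelling. -/
theorem QUANT1_rep (hLFI : LFI_stmt) (hIND : IND_stmt) (hCYC : CYC_stmt) {n : ℕ} (hn : 2 ≤ n)
    {d₀ : ℝ} (hd0 : 0 < d₀) {c : ℂ} {μ : ℂ → ℂ}
    (hμ : IsInvariantLineField (fun z : ℂ => z ^ n + c) μ) {z ρ : ℂ}
    (hk : 0 < Function.minimalPeriod (fun w : ℂ => w ^ n + c) z)
    (hρ : ρ = deriv ((fun w : ℂ => w ^ n + c)^[Function.minimalPeriod
      (fun w : ℂ => w ^ n + c) z]) z)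
    (hj : d₀ ≤ ‖ρ / ‖ρ‖ - 1‖) :
    1 < ‖ρ‖ ∧ ∃ (k : ℕ) (_ : NeZero k) (b : ZMod k → ℂ),
      k = Function.minimalPeriod (fun w : ℂ => w ^ n + c) z ∧ IsCyc n c b ∧ rho n b = ρ := by
  obtain ⟨hc3, hLF, hvol, hna⟩ := hLFI n c μ hn hμ
  have hge : 1 ≤ ‖ρ‖ := by
    by_contra h
    rw [not_le] at h
    apply hna
    refine ⟨z, _, hk, Function.isPeriodicPt_minimalPeriod _ _, ?_⟩
    rw [← hρ]
    exact h
  have hρ0 : ρ ≠ 0 := by
    intro h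
    rw [h, norm_zero] at hge
    linarith
  obtain ⟨k, hk0, b, hkeq, hcyc, hrho⟩ := hCYC n c z hn hk (by rw [← hρ]; exact hρ0)
  rw [← hρ] at hrho
  refine ⟨lt_of_le_of_ne hge ?_, k, hk0, b, hkeq, hcyc, hrho⟩
  intro h1
  have h2 := hIND n k c b μ hn hc3 hcyc hLF hvol (by rw [hrho, ← h1])
  rw [hrho] at h2
  have h3 := hj
  rw [h2] at h3
  simp at h3
  linarith

/-- QUANT. -/
theorem QUANT1 (hLFI : LFI_stmt) (hCTB : CTB_stmt) (hNZ : NZ_stmt) (hIND : IND_stmt)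
    (hCYC : CYC_stmt) (hTHA : MQ.THB_stmt) (hTG : TG_stmt) (hINEQ : INEQ_stmt) : QUANT1_stmt := by
  intro n hn d₀ hd0
  obtain ⟨ε, hε, hA⟩ := hTHA n d₀ hn hd0
  refine ⟨ε / 100, by positivity, ?_⟩
  intro c μ hμ
  obtain ⟨hc3, hLF, hvol, hna⟩ := hLFI n c μ hn hμ
  have hne := hNZ n c μ hn hLF hvol
  refine ⟨hne, ?_⟩
  intro z ρ hk hρ hj
  obtain ⟨h1, k, hk0, b, hkeq, hcyc, hrho⟩ :=
    QUANT1_rep hLFI hIND hCYC hn hd0 hμ (by omega) hρ hj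
  have hrho1 : rho n b ≠ 1 := by
    intro h
    rw [← hrho, h, norm_one] at h1
    exact lt_irrefl _ h1
  obtain ⟨g, hg, -⟩ := hTG n k c b hn hcyc hrho1
  rw [← hrho] at h1 hj ⊢
  have h2 := hA k c b g (by omega) hc3 hcyc h1 hj hg
  have h3 := hINEQ n k c b g μ hn hcyc hLF h1.le hg
  have h4 := (hCTB μ hLF.meas hLF.bd hLF.supp).2.1 c
  have hL : 0 < Real.log ‖rho n b‖ := Real.log_pos h1
  have hpi : Real.pi < 3.15 := Real.pi_lt_d2
  have ha := norm_nonneg (CT μ c)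
  set a := ‖CT μ c‖
  set L := Real.log ‖rho n b‖
  set S := ‖∑ i, g i‖
  have h5 : ε * a ≤ (L + S) * a := mul_le_mul_of_nonneg_right h2 ha
  have h6 : L * a ≤ L * 80 := mul_le_mul_of_nonneg_left h4 hL.le
  have h7 : 2 * Real.pi * L ≤ 2 * 3.15 * L := by gcongr
  have h8 : (L + S) * a = L * a + S * a := by ring
  rw [div_mul_eq_mul_div, div_le_iff₀ (by norm_num)]
  linarith

/-- QUAL. -/
theorem QUAL1 (hLFI : LFI_stmt) (hIND : IND_stmt) (hCYC : CYC_stmt) (hQ : QUANT1_stmt) :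
    QUAL1_stmt := by
  intro n c hn hF d₀ hd0
  obtain ⟨μ, hμ⟩ := hF
  obtain ⟨κ, hκ, hQ2⟩ := hQ n hn d₀ hd0
  obtain ⟨hne, hQ3⟩ := hQ2 c μ hμ
  have ha : 0 < ‖CT μ c‖ := norm_pos_iff.mpr hne
  -- fixed points
  set f : ℂ → ℂ := fun w => w ^ n + c with hf
  have hfin : {z : ℂ | f z = z}.Finite := by
    set P : Polynomial ℂ := Polynomial.X ^ n + Polynomial.C c - Polynomial.X with hP
    have hP0 : P ≠ 0 := by
      intro h
      have h1 : P.coeff n = 1 := by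
        rw [hP, Polynomial.coeff_sub, Polynomial.coeff_add, Polynomial.coeff_X_pow,
          Polynomial.coeff_C, Polynomial.coeff_X]
        simp [show n ≠ 0 by omega, show (1 : ℕ) ≠ n by omega]
      rw [h] at h1
      simp at h1
    refine (P.roots.toFinset.finite_toSet).subset ?_
    intro z hz
    simp only [Finset.mem_coe, Multiset.mem_toFinset]
    rw [Polynomial.mem_roots hP0, Polynomial.IsRoot.def, hP]
    simp only [Polynomial.eval_sub, Polynomial.eval_add, Polynomial.eval_pow, Polynomial.eval_X,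
      Polynomial.eval_C]
    have : z ^ n + c = z := hz
    rw [this, sub_self]
  have hev : ∀ᶠ e in 𝓝[>] (0 : ℝ), ∀ z ∈ {z : ℂ | f z = z}, 1 < ‖deriv f z‖ →
      1 + e ≤ ‖deriv f z‖ := by
    rw [Filter.eventually_all_finite hfin]
    intro z _
    by_cases h1 : 1 < ‖deriv f z‖
    · have h2 : ∀ᶠ e in 𝓝[>] (0 : ℝ), e < ‖deriv f z‖ - 1 :=
        nhdsWithin_le_nhds (gt_mem_nhds (by linarith))
      filter_upwards [h2] with e he _
      linarith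
    · exact Eventually.of_forall fun e h => absurd h h1
  obtain ⟨e, he, hepos⟩ := (hev.and self_mem_nhdsWithin).exists
  have hepos' : (0 : ℝ) < e := hepos
  refine ⟨min e (κ * ‖CT μ c‖), lt_min hepos' (by positivity), ?_⟩
  intro z ρ hk hρ hj
  obtain ⟨h1, -⟩ := QUANT1_rep hLFI hIND hCYC hn hd0 hμ hk hρ hj
  by_cases hk2 : 2 ≤ Function.minimalPeriod f z
  · have h2 := hQ3 z ρ hk2 hρ hj
    have h3 := Real.add_one_le_exp (Real.log ‖ρ‖)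
    rw [Real.exp_log (by linarith)] at h3
    have h4 := min_le_right e (κ * ‖CT μ c‖)
    linarith
  · have hk1 : Function.minimalPeriod f z = 1 := by omega
    have hfix : f z = z := by
      have := Function.isPeriodicPt_minimalPeriod f z
      rw [hk1] at this
      simpa [Function.IsPeriodicPt, Function.IsFixedPt] using this
    have hρ2 : ρ = deriv f z := by
      rw [hρ, hk1, Function.iterate_one]
    have h2 := he z hfix (by rw [← hρ2]; exact h1)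
    rw [← hρ2] at h2
    have h4 := min_le_left e (κ * ‖CT μ c‖)
    linarith

theorem FIN1 (hQ : QUAL1_stmt) : FIN1_stmt := by
  intro n c ζ hn hζ hj hacc hline
  have hpos : 0 < ‖ζ - 1‖ := norm_pos_iff.2 (sub_ne_zero.2 hj)
  obtain ⟨ε, hε, hQ'⟩ := hQ n c hn hline (‖ζ - 1‖ / 2) (by positivity)
  have hζ0 : ζ ≠ 0 := by
    rintro rfl
    rw [norm_zero] at hζ
    exact zero_ne_one hζ
  have hnorm : ((‖ζ‖ : ℝ) : ℂ) ≠ 0 := by
    rw [hζ]
    simp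
  have hcont : ContinuousAt (fun ρ : ℂ => ‖ρ / ((‖ρ‖ : ℝ) : ℂ) - 1‖) ζ := by
    have h1 : ContinuousAt (fun ρ : ℂ => ρ / ((‖ρ‖ : ℝ) : ℂ)) ζ :=
      continuousAt_id.div (Complex.continuous_ofReal.comp continuous_norm).continuousAt hnorm
    exact (h1.sub continuousAt_const).norm
  have hval : ‖ζ - 1‖ / 2 < ‖ζ / ((‖ζ‖ : ℝ) : ℂ) - 1‖ := by
    rw [hζ]
    simp only [Complex.ofReal_one, div_one]
    linarith
  have hev1 : ∀ᶠ ρ in 𝓝 ζ, ‖ζ - 1‖ / 2 ≤ ‖ρ / ((‖ρ‖ : ℝ) : ℂ) - 1‖ :=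
    (hcont.eventually (lt_mem_nhds hval)).mono fun ρ h => le_of_lt h
  have hev2 : ∀ᶠ ρ in 𝓝 ζ, ‖ρ‖ < 1 + ε := by
    refine continuous_norm.continuousAt.eventually (gt_mem_nhds ?_)
    show ‖ζ‖ < 1 + ε
    rw [hζ]
    linarith
  obtain ⟨η, hη, hball⟩ := Metric.eventually_nhds_iff.1 (hev1.and hev2)
  obtain ⟨z, hz, hzη⟩ := hacc η hη
  obtain ⟨h1, h2⟩ := hball (y := deriv ((fun w : ℂ => w ^ n + c)^[Function.minimalPeriod
    (fun w : ℂ => w ^ n + c) z]) z) (by rw [dist_eq_norm]; exact hzη)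
  have h3 := hQ' z _ hz rfl h1
  linarith

theorem quant1 (h : MQ.THB_stmt) : QUANT1_stmt := QUANT1 LFI Z_CTB Z_NZ Z_IND CYC h TG Z_INEQ
theorem qual1 (h : MQ.THB_stmt) : QUAL1_stmt := QUAL1 LFI Z_IND CYC (quant1 h)
theorem fin1 (h : MQ.THB_stmt) : FIN1_stmt := FIN1 (qual1 h)

end NLF

namespace Pool.Agent.helper74.NLR

/-- The derivative at `z` of the `k`-th iterate of `w ^ n + c`. -/
noncomputable def multiplier (n k : ℕ) (c z : ℂ) : ℂ := deriv ((fun w : ℂ => w ^ n + c)^[k]) z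

/-- `z` is a periodic point of `w ^ n + c` of exact period `k ≥ 1`. -/
def Cycle (n k : ℕ) (c z : ℂ) : Prop :=
  0 < k ∧ Function.minimalPeriod (fun w : ℂ => w ^ n + c) z = k

theorem result (hTHB : MQ.THB_stmt) : ∀ n : ℕ, 2 ≤ n →
    (∀ d > (0 : ℝ), ∃ K > (0 : ℝ), ∀ (c : ℂ) (μ : ℂ → ℂ),
      IsInvariantLineField (fun z : ℂ => z ^ n + c) μ →
        ∫ z : ℂ, μ z / (z - c) ≠ 0 ∧ ∀ (k : ℕ) (z : ℂ), 2 ≤ k → Cycle n k c z →
          d ≤ ‖multiplier n k c z / ‖multiplier n k c z‖ - 1‖ →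
          ‖∫ z : ℂ, μ z / (z - c)‖ ≤ K * Real.log ‖multiplier n k c z‖) ∧
    (∀ c ζ : ℂ, ‖ζ‖ = 1 → ζ ≠ 1 →
      (∀ η > (0 : ℝ), ∃ (k : ℕ) (z : ℂ), Cycle n k c z ∧ ‖multiplier n k c z - ζ‖ < η) →
        ¬ HasInvariantLineField (fun z : ℂ => z ^ n + c)) := by
  intro n hn
  refine ⟨fun d hd => ?_, fun c ζ h1 h2 h3 => ?_⟩
  · obtain ⟨κ, hκ, h⟩ := NLF.quant1 hTHB n hn d hd
    refine ⟨1 / κ, by positivity, fun c μ hμ => ⟨(h c μ hμ).1, fun k z hk hz hsep => ?_⟩⟩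
    have key := (h c μ hμ).2 z (multiplier n k c z) (by rw [hz.2]; exact hk)
      (by rw [hz.2]; rfl) hsep
    have h4 : ‖∫ z : ℂ, μ z / (z - c)‖ ≤ Real.log ‖multiplier n k c z‖ / κ := by
      rw [le_div_iff₀ hκ, mul_comm]
      exact key
    calc ‖∫ z : ℂ, μ z / (z - c)‖ ≤ Real.log ‖multiplier n k c z‖ / κ := h4
      _ = 1 / κ * Real.log ‖multiplier n k c z‖ := by ring
  · refine NLF.fin1 hTHB n c ζ hn h1 h2 fun η hη => ?_
    obtain ⟨k, z, hz, h⟩ := h3 η hη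
    exact ⟨z, by rw [hz.2]; exact hz.1, by rw [hz.2]; exact h⟩

end Pool.Agent.helper74.NLR
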